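import Pool.Agent.helper63.TI.SpecA

/-!
# Row ta:ROU (MP_3703a7_ag): powers of elements close to 1
-/

set_option autoImplicit false

namespace Pool.Agent.TI

open Polynomial NumberField Pool.Agent.GJ Pool.Agent.TK Pool.Agent.TQ Pool.Agent.TFQ Pool.Agent.TD Pool.Agent.AQ
open Pool.Agent.FJ (VT Om chiO IsFrobO rf rs)
open scoped TensorProduct

noncomputable section

theorem ROU_four (j : ℕ) : 2 * (j + 2) ≤ 4 ^ (j + 1) := by
  induction j with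
  | zero => norm_num
  | succ j ih =>
    rw [pow_succ]
    omega

theorem ROU_gen {K : Type} [NormedField K] [IsUltrametricDist K] [CharZero K]
    (hlow : ∀ i : ℕ, 0 < i → 1 ≤ (i : ℝ) * ‖(i : K)‖) (z : K) (hz : ‖z‖ ≤ 1 / 4) (n : ℕ) :
    ‖(1 + z) ^ (n + 1) - 1‖ = ‖((n + 1 : ℕ) : K)‖ * ‖z‖ := by
  rcases eq_or_ne z 0 with rfl | hz0
  · simp
  have e1 : (1 + z) ^ (n + 1) - 1 =
      ∑ j ∈ Finset.range n, z ^ (j + 2) * ((n + 1).choose (j + 2) : K) + ((n + 1 : ℕ) : K) * z := by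
    rw [add_comm 1 z, add_pow]
    simp only [one_pow, mul_one]
    rw [Finset.sum_range_succ', Finset.sum_range_succ']
    simp
    ring
  have hM : (0 : ℝ) < ‖((n + 1 : ℕ) : K)‖ := by
    rw [norm_pos_iff]
    exact_mod_cast Nat.succ_ne_zero n
  have hzp : 0 < ‖z‖ := norm_pos_iff.2 hz0
  have hsum : ‖∑ j ∈ Finset.range n, z ^ (j + 2) * ((n + 1).choose (j + 2) : K)‖ ≤
      1 / 2 * (‖((n + 1 : ℕ) : K)‖ * ‖z‖) := by
    refine IsUltrametricDist.norm_sum_le_of_forall_le_of_nonneg (by positivity) fun j _ => ?_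
    have h1 : ((n + 1 : ℕ) : K) * (n.choose (j + 1) : K) =
        ((n + 1).choose (j + 2) : K) * ((j + 2 : ℕ) : K) := by
      exact_mod_cast congrArg (fun x : ℕ => (x : K)) (Nat.add_one_mul_choose_eq n (j + 1))
    have h2 : ‖((n + 1).choose (j + 2) : K)‖ * ‖((j + 2 : ℕ) : K)‖ ≤ ‖((n + 1 : ℕ) : K)‖ := by
      rw [← norm_mul, ← h1, norm_mul]
      exact mul_le_of_le_one_right (norm_nonneg _) (IsUltrametricDist.norm_natCast_le_one K _)
    have h3 := hlow (j + 2) (by omega)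
    have h4 : ‖((n + 1).choose (j + 2) : K)‖ ≤ ((j + 2 : ℕ) : ℝ) * ‖((n + 1 : ℕ) : K)‖ := by
      calc ‖((n + 1).choose (j + 2) : K)‖ ≤
          ‖((n + 1).choose (j + 2) : K)‖ * (((j + 2 : ℕ) : ℝ) * ‖((j + 2 : ℕ) : K)‖) :=
            le_mul_of_one_le_right (norm_nonneg _) h3
        _ = ((j + 2 : ℕ) : ℝ) * (‖((n + 1).choose (j + 2) : K)‖ * ‖((j + 2 : ℕ) : K)‖) := by ring
        _ ≤ _ := by gcongr
    have h5 : ‖z‖ ^ (j + 1) ≤ (1 / 4) ^ (j + 1) := by gcongr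
    have h6 : ((j + 2 : ℕ) : ℝ) * (1 / 4) ^ (j + 1) ≤ 1 / 2 := by
      have h7 : ((2 * (j + 2) : ℕ) : ℝ) ≤ ((4 ^ (j + 1) : ℕ) : ℝ) := by exact_mod_cast ROU_four j
      push_cast at h7 ⊢
      rw [one_div, inv_pow, ← div_eq_mul_inv, div_le_iff₀ (by positivity)]
      linarith
    rw [norm_mul, norm_pow]
    calc ‖z‖ ^ (j + 2) * ‖((n + 1).choose (j + 2) : K)‖
        ≤ ‖z‖ ^ (j + 2) * (((j + 2 : ℕ) : ℝ) * ‖((n + 1 : ℕ) : K)‖) := by gcongr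
      _ = (((j + 2 : ℕ) : ℝ) * ‖z‖ ^ (j + 1)) * (‖((n + 1 : ℕ) : K)‖ * ‖z‖) := by ring
      _ ≤ (((j + 2 : ℕ) : ℝ) * (1 / 4) ^ (j + 1)) * (‖((n + 1 : ℕ) : K)‖ * ‖z‖) := by gcongr
      _ ≤ 1 / 2 * (‖((n + 1 : ℕ) : K)‖ * ‖z‖) := by gcongr
  have hp : 0 < ‖((n + 1 : ℕ) : K)‖ * ‖z‖ := by positivity
  have hlt : ‖∑ j ∈ Finset.range n, z ^ (j + 2) * ((n + 1).choose (j + 2) : K)‖ <
      ‖((n + 1 : ℕ) : K) * z‖ := by
    rw [norm_mul]
    linarith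
  rw [e1, IsUltrametricDist.norm_add_eq_max_of_norm_ne_norm hlt.ne, max_eq_right hlt.le, norm_mul]

theorem ROU : ROU_stmt := by
  intro q _ z hz M hM
  obtain ⟨n, rfl⟩ := Nat.exists_eq_add_of_le' hM
  have hq : q.Prime := Fact.out
  have hnat : ∀ i : ℕ, ‖(i : PadicAlgCl q)‖ = ‖(i : ℚ_[q])‖ := fun i => by
    rw [← map_natCast (algebraMap ℚ_[q] (PadicAlgCl q)) i]
    exact PadicAlgCl.norm_extends q (i : ℚ_[q])
  have hq1 : ‖(q : PadicAlgCl q)‖ = (q : ℝ)⁻¹ := by rw [hnat, Padic.norm_p]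
  have h2 : (2 : ℝ) ≤ q := by exact_mod_cast hq.two_le
  refine ROU_gen ?_ z ?_ n
  · intro i hi
    have hi0 : (i : ℚ_[q]) ≠ 0 := by exact_mod_cast hi.ne'
    rw [hnat, Padic.norm_eq_zpow_neg_valuation hi0, Padic.valuation_natCast, zpow_neg, zpow_natCast]
    have hle : q ^ padicValNat q i ≤ i := Nat.le_of_dvd hi pow_padicValNat_dvd
    have hle' : (q : ℝ) ^ padicValNat q i ≤ i := by exact_mod_cast hle
    rw [← div_eq_mul_inv, le_div_iff₀ (by positivity), one_mul]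
    exact hle'
  · refine hz.trans ?_
    rw [hq1, inv_pow, one_div]
    refine inv_anti₀ (by norm_num) ?_
    nlinarith

end

end Pool.Agent.TI
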